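import Mathlib

set_option autoImplicit false

/-!
A group which is the union of an increasing sequence of proper subgroups acts on a tree without
a fixed vertex.
-/

namespace Pool.Agent.Run7.h261.FA

section chain

variable {H : Type} [Group H] {A : ℕ → Subgroup H} (hA : Monotone A)

/-- vertices -/
abbrev Vx (A : ℕ → Subgroup H) : Type := (n : ℕ) × (H ⧸ A n)

/-- the vertex of a coset -/
def vx (A : ℕ → Subgroup H) (n : ℕ) (h : H) : Vx A := ⟨n, (h : H ⧸ A n)⟩

theorem vx_eq {n : ℕ} {h h' : H} : vx A n h = vx A n h' ↔ h⁻¹ * h' ∈ A n := by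
  unfold vx
  rw [Sigma.mk.injEq]
  simp only [heq_eq_eq, true_and]
  exact QuotientGroup.eq

theorem exists_vx (v : Vx A) : ∃ (n : ℕ) (h : H), v = vx A n h := by
  obtain ⟨n, q⟩ := v
  obtain ⟨h, rfl⟩ := QuotientGroup.mk_surjective q
  exact ⟨n, h, rfl⟩

theorem smul_vx (g : H) (n : ℕ) (h : H) : g • vx A n h = vx A n (g * h) := rfl

/-- the next vertex towards the end -/
def par (v : Vx A) : Vx A := ⟨v.1 + 1, Subgroup.quotientMapOfLE (hA (Nat.le_succ v.1)) v.2⟩

theorem par_vx (n : ℕ) (h : H) : par hA (vx A n h) = vx A (n + 1) h := rfl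

theorem par_smul (g : H) (v : Vx A) : par hA (g • v) = g • par hA v := by
  obtain ⟨n, h, rfl⟩ := exists_vx v
  rw [smul_vx, par_vx, par_vx, smul_vx]

theorem par_fst (v : Vx A) : (par hA v).1 = v.1 + 1 := rfl

/-- the tree -/
def tr : SimpleGraph (Vx A) where
  Adj u v := par hA u = v ∨ par hA v = u
  symm := ⟨fun _ _ h => h.symm⟩
  loopless := ⟨fun u h => by
    have h1 : par hA u = u := by
      rcases h with h | h <;> exact h
    have h2 := par_fst hA u
    rw [h1] at h2
    omega⟩

theorem adj_par (v : Vx A) : (tr hA).Adj v (par hA v) := Or.inl rfl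

theorem reach_up (h : H) (n k : ℕ) : (tr hA).Reachable (vx A n h) (vx A (n + k) h) := by
  induction k with
  | zero => exact SimpleGraph.Reachable.refl _
  | succ k ih =>
    refine ih.trans ?_
    have := adj_par hA (vx A (n + k) h)
    rw [par_vx] at this
    exact this.reachable

theorem tr_isTree (hU : ∀ h : H, ∃ n, h ∈ A n) : (tr hA).IsTree := by
  constructor
  · rw [SimpleGraph.connected_iff]
    refine ⟨?_, ⟨vx A 0 1⟩⟩
    intro u v
    obtain ⟨n, g, rfl⟩ := exists_vx u
    obtain ⟨m, h, rfl⟩ := exists_vx v
    obtain ⟨k, hk⟩ := hU (g⁻¹ * h)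
    have h1 : vx A (n + (m + k)) g = vx A (m + (n + k)) h := by
      rw [show n + (m + k) = m + (n + k) by omega, vx_eq]
      exact hA (by omega) hk
    have h2 := reach_up hA g n (m + k)
    rw [h1] at h2
    exact h2.trans (reach_up hA h m (n + k)).symm
  · have key : ∀ v : Vx A,
        ¬ ((tr hA) \ SimpleGraph.fromEdgeSet {s(v, par hA v)}).Reachable v (par hA v) := by
      intro v hr
      have hinv : ∀ w, ((tr hA) \ SimpleGraph.fromEdgeSet {s(v, par hA v)}).Reachable v w →
          ∃ k : ℕ, (par hA)^[k] w = v := by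
        intro w hw
        rw [SimpleGraph.reachable_iff_reflTransGen] at hw
        induction hw with
        | refl => exact ⟨0, rfl⟩
        | tail _ hbc ih =>
          rename_i a b _
          rw [SimpleGraph.sdiff_adj, SimpleGraph.fromEdgeSet_adj] at hbc
          obtain ⟨h1, h2⟩ := hbc
          obtain ⟨k, hk⟩ := ih
          rcases h1 with h3 | h3
          · cases k with
            | zero =>
              exfalso
              apply h2
              rw [Function.iterate_zero, id] at hk
              subst hk
              rw [← h3]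
              exact ⟨rfl, (adj_par hA _).ne⟩
            | succ k =>
              rw [Function.iterate_succ_apply, h3] at hk
              exact ⟨k, hk⟩
          · refine ⟨k + 1, ?_⟩
            rw [Function.iterate_succ_apply, h3]
            exact hk
      obtain ⟨k, hk⟩ := hinv _ hr
      have hlev : ∀ (k : ℕ) (w : Vx A), ((par hA)^[k] w).1 = w.1 + k := by
        intro k
        induction k with
        | zero => intro w; rfl
        | succ k ih =>
          intro w
          rw [Function.iterate_succ_apply, ih, par_fst]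
          omega
      have h1 := hlev k (par hA v)
      rw [hk, par_fst] at h1
      omega
    rw [SimpleGraph.isAcyclic_iff_forall_adj_isBridge]
    intro u v huv
    rw [SimpleGraph.isBridge_iff]
    rcases huv with h | h
    · rw [← h]; exact key u
    · rw [← h]
      intro hr
      apply key v
      rw [Sym2.eq_swap]
      exact hr.symm

/-- **the action of an increasing union** -/
theorem chain_tree (hA : Monotone A) (hU : ∀ h : H, ∃ n, h ∈ A n) (hne : ∀ n, A n ≠ ⊤) :
    ∃ (V : Type) (_ : MulAction H V) (T : SimpleGraph V), T.IsTree ∧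
      (∀ h : H, ∀ x y : V, T.Adj x y → T.Adj (h • x) (h • y)) ∧
      (∀ h : H, ∀ x y : V, T.Adj x y → ¬ (h • x = y ∧ h • y = x)) ∧
      ¬ ∃ v : V, ∀ h : H, h • v = v := by
  refine ⟨Vx A, inferInstance, tr hA, tr_isTree hA hU, ?_, ?_, ?_⟩
  · intro h x y hxy
    rcases hxy with h1 | h1
    · left
      rw [par_smul, h1]
    · right
      rw [par_smul, h1]
  · rintro h x y hxy ⟨h1, -⟩
    have h2 : (h • x).1 = x.1 := rfl
    rw [h1] at h2
    rcases hxy with h3 | h3
    · rw [← h3, par_fst] at h2
      omega
    · rw [← h3, par_fst] at h2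
      omega
  · rintro ⟨v, hv⟩
    obtain ⟨n, g, rfl⟩ := exists_vx v
    apply hne n
    rw [eq_top_iff]
    intro h _
    have h1 := hv (g * h * g⁻¹)
    rw [smul_vx, eq_comm, vx_eq] at h1
    have : g⁻¹ * (g * h * g⁻¹ * g) = h := by group
    rwa [this] at h1

end chain

end Pool.Agent.Run7.h261.FA
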