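import Pool.Agent.Run7.h261.FA.GrpG
import Pool.Agent.Run7.h261.FA.Chain

set_option autoImplicit false

/-!
A strictly increasing sequence of rings between `R` and the product ring with the same finite
projections.
-/

namespace Pool.Agent.Run7.h261.FA

open Cardinal

/-- the elements of the product ring all of whose coordinates come from `R` -/
def PP : Subalgebra (ZMod 2) P where
  carrier := {r | ∀ p, ∃ x ∈ R, x p = r p}
  mul_mem' {a b} ha hb p := by
    obtain ⟨x, hx, hxp⟩ := ha p
    obtain ⟨y, hy, hyp⟩ := hb p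
    exact ⟨x * y, R.mul_mem hx hy, by rw [Pi.mul_apply, Pi.mul_apply, hxp, hyp]⟩
  add_mem' {a b} ha hb p := by
    obtain ⟨x, hx, hxp⟩ := ha p
    obtain ⟨y, hy, hyp⟩ := hb p
    exact ⟨x + y, R.add_mem hx hy, by rw [Pi.add_apply, Pi.add_apply, hxp, hyp]⟩
  algebraMap_mem' r p := ⟨algebraMap _ _ r, R.algebraMap_mem r, rfl⟩

theorem R_le_PP : R ≤ PP := fun x hx _ => ⟨x, hx, rfl⟩

theorem countable_adjoin {s : Set P} (hs : s.Countable) :
    ((Algebra.adjoin (ZMod 2) s : Subalgebra (ZMod 2) P) : Set P).Countable := by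
  have h := Algebra.cardinalMk_adjoin_le (ZMod 2) s
  rw [← Cardinal.le_aleph0_iff_set_countable]
  refine h.trans ?_
  refine max_le (max_le ?_ ?_) le_rfl
  · exact Cardinal.mk_le_aleph0
  · exact Cardinal.le_aleph0_iff_set_countable.2 hs

theorem R_countable : (R : Set P).Countable := countable_adjoin gens_finite.countable

/-- the idempotent of a set of primes -/
noncomputable def idem (C : Set Nat.Primes) : P :=
  open Classical in fun p => if p ∈ C then 1 else 0

theorem idem_mem (C : Set Nat.Primes) : idem C ∈ PP := by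
  classical
  intro p
  by_cases hp : p ∈ C
  · exact ⟨1, R.one_mem, by simp [idem, hp]⟩
  · exact ⟨0, R.zero_mem, by simp [idem, hp]⟩

theorem idem_inj : Function.Injective idem := by
  classical
  intro C D h
  ext p
  have h1 := congrFun h p
  have h2 : (0 : M p) ≠ 1 := zero_ne_one
  by_cases hC : p ∈ C <;> by_cases hD : p ∈ D
  · simp [hC, hD]
  · simp [idem, hC, hD] at h1
  · simp [idem, hC, hD] at h1
  · simp [hC, hD]

theorem exists_new {K : Subalgebra (ZMod 2) P} (hK : (K : Set P).Countable) :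
    ∃ x ∈ PP, x ∉ K := by
  by_contra hcon
  push Not at hcon
  have h1 : Countable (Set Nat.Primes) := by
    haveI : Countable K := hK
    exact Function.Injective.countable (f := fun C => (⟨idem C, hcon _ (idem_mem C)⟩ : K))
      (fun C D h => idem_inj (congrArg Subtype.val h))
  have h2 : #(Set Nat.Primes) ≤ ℵ₀ := Cardinal.mk_le_aleph0
  rw [Cardinal.mk_set] at h2
  exact absurd (Cardinal.cantor #Nat.Primes) (not_lt.2 (h2.trans (Cardinal.aleph0_le_mk _)))

/-- countable rings between `R` and `PP` -/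
abbrev Mid : Type := {K : Subalgebra (ZMod 2) P // (K : Set P).Countable ∧ R ≤ K ∧ K ≤ PP}

theorem exists_next (K : Mid) : ∃ L : Mid, K.1 < L.1 := by
  obtain ⟨K, hK1, hK2, hK3⟩ := K
  obtain ⟨x, hx, hxK⟩ := exists_new hK1
  refine ⟨⟨Algebra.adjoin (ZMod 2) (insert x (K : Set P)), ?_, ?_, ?_⟩, ?_⟩
  · exact countable_adjoin (hK1.insert x)
  · intro y hy
    exact Algebra.subset_adjoin (Set.mem_insert_of_mem _ (hK2 hy))
  · rw [Algebra.adjoin_le_iff]
    intro y hy
    rcases hy with rfl | hy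
    · exact hx
    · exact hK3 hy
  · refine lt_of_le_of_ne (fun y hy => Algebra.subset_adjoin (Set.mem_insert_of_mem _ hy)) ?_
    intro h
    apply hxK
    have h1 : x ∈ Algebra.adjoin (ZMod 2) (insert x (K : Set P)) :=
      Algebra.subset_adjoin (Set.mem_insert _ _)
    have h2 : K = Algebra.adjoin (ZMod 2) (insert x (K : Set P)) := h
    exact h2.symm.le h1

/-- the chain of rings -/
noncomputable def KK : ℕ → Mid
  | 0 => ⟨R, R_countable, le_rfl, R_le_PP⟩
  | n + 1 => (exists_next (KK n)).choose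

theorem KK_lt (n : ℕ) : (KK n).1 < (KK (n + 1)).1 := (exists_next (KK n)).choose_spec

theorem KK_strictMono : StrictMono (fun n => (KK n).1) := strictMono_nat_of_lt_succ KK_lt

/-- the union -/
noncomputable def KI : Subalgebra (ZMod 2) P := ⨆ n, (KK n).1

theorem mem_KI {x : P} : x ∈ KI ↔ ∃ n, x ∈ (KK n).1 := by
  have hd : Directed (· ≤ ·) (fun n => (KK n).1) := KK_strictMono.monotone.directed_le
  have := Subalgebra.coe_iSup_of_directed hd
  rw [← SetLike.mem_coe, KI, this, Set.mem_iUnion]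
  rfl

theorem R_le_KI : R ≤ KI := fun _ hx => mem_KI.2 ⟨0, hx⟩

theorem KI_le_PP : KI ≤ PP := by
  intro x hx
  obtain ⟨n, hn⟩ := mem_KI.1 hx
  exact (KK n).2.2.2 hn

theorem mem_EL_KI {g : GG} (hg : g ∈ EL KI) : ∃ n, g ∈ EL (KK n).1 := by
  unfold EL at hg
  induction hg using Subgroup.closure_induction with
  | mem x hx =>
    obtain ⟨i, j, hij, r, hr, rfl⟩ := hx
    obtain ⟨n, hn⟩ := mem_KI.1 hr
    exact ⟨n, E_mem i j hij hn⟩
  | one => exact ⟨0, Subgroup.one_mem _⟩
  | mul x y _ _ hx hy =>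
    obtain ⟨n, hn⟩ := hx
    obtain ⟨m, hm⟩ := hy
    have h1 := EL_mono (KK_strictMono.monotone (le_max_left n m)) hn
    have h2 := EL_mono (KK_strictMono.monotone (le_max_right n m)) hm
    exact ⟨max n m, Subgroup.mul_mem _ h1 h2⟩
  | inv x _ hx =>
    obtain ⟨n, hn⟩ := hx
    exact ⟨n, Subgroup.inv_mem _ hn⟩

/-- the entries of the elements of the elementary group -/
theorem entries {K : Subalgebra (ZMod 2) P} {g : GG} (hg : g ∈ EL K) :
    (∀ i j, (fun p => (g p : Matrix (Fin 3) (Fin 3) (M p)) i j) ∈ K) ∧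
    (∀ i j, (fun p => ((g p)⁻¹ : U3 (M p)).val i j) ∈ K) := by
  have hE : ∀ (i j : Fin 3) (h : i ≠ j) (r : P), r ∈ K → ∀ i' j' : Fin 3,
      (fun p => (E i j h r p : Matrix (Fin 3) (Fin 3) (M p)) i' j') ∈ K := by
    intro i j h r hr i' j'
    have e : (fun p => (E i j h r p : Matrix (Fin 3) (Fin 3) (M p)) i' j') =
        (if i' = j' then (1 : P) else 0) + (if i = i' ∧ j = j' then r else 0) := by
      funext p
      show (1 + Matrix.single i j (r p) : Matrix (Fin 3) (Fin 3) (M p)) i' j' = _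
      rw [Matrix.add_apply, Matrix.one_apply, Matrix.single_apply, Pi.add_apply]
      congr 1
      · split_ifs <;> rfl
      · split_ifs <;> rfl
    rw [e]
    refine K.add_mem ?_ ?_
    · split_ifs
      · exact K.one_mem
      · exact K.zero_mem
    · split_ifs
      · exact hr
      · exact K.zero_mem
  unfold EL at hg
  induction hg using Subgroup.closure_induction with
  | mem x hx =>
    obtain ⟨i, j, hij, r, hr, rfl⟩ := hx
    refine ⟨hE i j hij r hr, ?_⟩
    intro i' j'
    have h1 := hE i j hij (-r) (K.neg_mem hr) i' j'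
    rw [E_neg] at h1
    exact h1
  | one =>
    have h1 : ∀ i j : Fin 3, (fun p => (1 : Matrix (Fin 3) (Fin 3) (M p)) i j) ∈ K := by
      intro i j
      have e : (fun p => (1 : Matrix (Fin 3) (Fin 3) (M p)) i j) = if i = j then (1 : P) else 0 := by
        funext p
        rw [Matrix.one_apply]
        split_ifs <;> rfl
      rw [e]
      split_ifs
      · exact K.one_mem
      · exact K.zero_mem
    refine ⟨h1, ?_⟩
    intro i j
    have h2 := h1 i j
    have e : (fun p => (((1 : GG) p)⁻¹ : U3 (M p)).val i j) =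
        (fun p => (1 : Matrix (Fin 3) (Fin 3) (M p)) i j) := by
      funext p
      rw [Pi.one_apply, inv_one, Units.val_one]
    rw [e]
    exact h2
  | mul x y _ _ hx hy =>
    constructor
    · intro i j
      have e : (fun p => ((x * y) p : Matrix (Fin 3) (Fin 3) (M p)) i j) =
          ∑ k, (fun p => (x p : Matrix (Fin 3) (Fin 3) (M p)) i k) *
            (fun p => (y p : Matrix (Fin 3) (Fin 3) (M p)) k j) := by
        funext p
        rw [Finset.sum_apply, Pi.mul_apply, Units.val_mul, Matrix.mul_apply]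
        rfl
      rw [e]
      exact K.sum_mem fun k _ => K.mul_mem (hx.1 i k) (hy.1 k j)
    · intro i j
      have e : (fun p => (((x * y) p)⁻¹ : U3 (M p)).val i j) =
          ∑ k, (fun p => ((y p)⁻¹ : U3 (M p)).val i k) *
            (fun p => ((x p)⁻¹ : U3 (M p)).val k j) := by
        funext p
        rw [Finset.sum_apply, Pi.mul_apply, mul_inv_rev, Units.val_mul, Matrix.mul_apply]
        rfl
      rw [e]
      exact K.sum_mem fun k _ => K.mul_mem (hy.2 i k) (hx.2 k j)
  | inv x _ hx =>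
    refine ⟨hx.2, ?_⟩
    intro i j
    have e : (fun p => (((x⁻¹ : GG) p)⁻¹ : U3 (M p)).val i j) =
        (fun p => (x p : Matrix (Fin 3) (Fin 3) (M p)) i j) := by
      funext p
      rw [Pi.inv_apply, inv_inv]
    rw [e]
    exact hx.1 i j

theorem of_E_mem {K : Subalgebra (ZMod 2) P} {r : P} (h : E 0 1 (by decide) r ∈ EL K) : r ∈ K := by
  have h1 := (entries h).1 0 1
  have e : (fun p => (E 0 1 (by decide) r p : Matrix (Fin 3) (Fin 3) (M p)) 0 1) = r := by
    funext p
    show (1 + Matrix.single 0 1 (r p) : Matrix (Fin 3) (Fin 3) (M p)) 0 1 = _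
    rw [Matrix.add_apply, Matrix.single_apply_same, Matrix.one_apply_ne (by decide), zero_add]
  rwa [e] at h1

/-- the same projections -/
theorem same_proj (F : Finset Nat.Primes) (h : GG) (hh : h ∈ EL KI) :
    ∃ g ∈ EL R, ∀ p ∈ F, g p = h p := by
  unfold EL at hh
  induction hh using Subgroup.closure_induction with
  | mem x hx =>
    obtain ⟨i, j, hij, r, hr, rfl⟩ := hx
    choose y hy hyp using KI_le_PP hr
    refine ⟨E i j hij (∑ p ∈ F, (Pi.single p 1 : P) * y p), E_mem i j hij
      (R.sum_mem fun p _ => R.mul_mem (single_one_mem p) (hy p)), ?_⟩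
    intro p hp
    show el i j hij ((∑ q ∈ F, (Pi.single q 1 : P) * y q) p) = el i j hij (r p)
    congr 1
    rw [Finset.sum_apply, Finset.sum_eq_single p]
    · rw [Pi.mul_apply, Pi.single_eq_same, one_mul, hyp]
    · intro q _ hq
      rw [Pi.mul_apply, Pi.single_eq_of_ne hq.symm, zero_mul]
    · intro h'
      exact absurd hp h'
  | one => exact ⟨1, Subgroup.one_mem _, fun _ _ => rfl⟩
  | mul x y _ _ hx hy =>
    obtain ⟨a, ha, hax⟩ := hx
    obtain ⟨b, hb, hby⟩ := hy
    exact ⟨a * b, Subgroup.mul_mem _ ha hb, fun p hp => by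
      rw [Pi.mul_apply, Pi.mul_apply, hax p hp, hby p hp]⟩
  | inv x _ hx =>
    obtain ⟨a, ha, hax⟩ := hx
    exact ⟨a⁻¹, Subgroup.inv_mem _ ha, fun p hp => by
      rw [Pi.inv_apply, Pi.inv_apply, hax p hp]⟩

/-- the big group acts on a tree without a fixed vertex -/
theorem big_tree : ∃ (V : Type) (_ : MulAction (EL KI) V) (T : SimpleGraph V), T.IsTree ∧
      (∀ h : EL KI, ∀ x y : V, T.Adj x y → T.Adj (h • x) (h • y)) ∧
      (∀ h : EL KI, ∀ x y : V, T.Adj x y → ¬ (h • x = y ∧ h • y = x)) ∧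
      ¬ ∃ v : V, ∀ h : EL KI, h • v = v := by
  refine chain_tree (A := fun n => (EL (KK n).1).subgroupOf (EL KI)) ?_ ?_ ?_
  · intro n m hnm
    exact Subgroup.comap_mono (EL_mono (KK_strictMono.monotone hnm))
  · intro h
    obtain ⟨n, hn⟩ := mem_EL_KI h.2
    exact ⟨n, Subgroup.mem_subgroupOf.2 hn⟩
  · intro n htop
    obtain ⟨x, hx, hxn⟩ := SetLike.exists_of_lt (KK_lt n)
    apply hxn
    apply of_E_mem
    have h1 : E 0 1 (by decide) x ∈ EL KI := E_mem _ _ _ (mem_KI.2 ⟨n + 1, hx⟩)
    have h2 : (⟨_, h1⟩ : EL KI) ∈ (EL (KK n).1).subgroupOf (EL KI) := by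
      rw [htop]
      trivial
    exact Subgroup.mem_subgroupOf.1 h2

end Pool.Agent.Run7.h261.FA
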