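import Mathlib

set_option autoImplicit false

/-!
The product of the matrix rings `M_{2^p}(F_2)`, `p` prime, realised on the functions on
`(ZMod p → ZMod 2)`, with the operators `Z_j` (multiplication by the `j`-th coordinate),
`T_j` (flipping the `j`-th coordinate) and `S` (the shift).
-/

namespace Pool.Agent.Run7.h261.FA

open Matrix

section gen

variable {X : Type} [Fintype X] [DecidableEq X]

/-- the permutation matrix of `σ` -/
def Pm (σ : Equiv.Perm X) : Matrix X X (ZMod 2) := fun x y => if σ x = y then 1 else 0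

theorem Pm_mul (σ τ : Equiv.Perm X) : Pm σ * Pm τ = Pm (σ.trans τ) := by
  ext x z
  rw [Matrix.mul_apply, Finset.sum_eq_single (σ x)]
  · by_cases h : τ (σ x) = z <;> simp [Pm, h]
  · intro y _ hy
    simp [Pm, hy.symm]
  · intro h
    exact absurd (Finset.mem_univ _) h

omit [Fintype X] in
theorem Pm_one : Pm (Equiv.refl X) = 1 := by
  ext x y
  by_cases h : x = y
  · subst h
    simp [Pm]
  · simp [Pm, h]

theorem Pm_diag (σ : Equiv.Perm X) (b : X → ZMod 2) :
    Pm σ * Matrix.diagonal b = Matrix.diagonal (fun x => b (σ x)) * Pm σ := by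
  ext x y
  rw [Matrix.mul_diagonal, Matrix.diagonal_mul]
  by_cases h : σ x = y
  · simp [Pm, h]
  · simp [Pm, h]

end gen

instance instNeZeroPrimes (p : Nat.Primes) : NeZero (p : ℕ) := ⟨p.2.ne_zero⟩

/-- configurations -/
abbrev X (p : Nat.Primes) : Type := ZMod p → ZMod 2

/-- the matrix ring at the prime `p` -/
abbrev M (p : Nat.Primes) : Type := Matrix (X p) (X p) (ZMod 2)

/-- the product of all the matrix rings -/
abbrev P : Type := (p : Nat.Primes) → M p

theorem charTwo_M (p : Nat.Primes) (a : M p) : a + a = 0 := by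
  ext x y
  exact CharTwo.add_self_eq_zero _

theorem charTwo_P (a : P) : a + a = 0 := by
  funext p
  exact charTwo_M p _

section coord

variable (p : Nat.Primes)

/-- flipping the coordinate `j` -/
def flip (j : ZMod p) : Equiv.Perm (X p) := Equiv.addRight (Pi.single j 1)

/-- the shift -/
def shift : Equiv.Perm (X p) where
  toFun x := fun i => x (i + 1)
  invFun x := fun i => x (i - 1)
  left_inv x := by funext i; simp
  right_inv x := by funext i; simp

/-- multiplication by the `j`-th coordinate -/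
def Zc (j : ZMod p) : M p := Matrix.diagonal (fun x => x j)

/-- flipping the `j`-th coordinate -/
def Tc (j : ZMod p) : M p := Pm (flip p j)

/-- the shift operator -/
def Sc : M p := Pm (shift p)

/-- the inverse of the shift operator -/
def Sc' : M p := Pm (shift p).symm

theorem Sc_mul_Sc' : Sc p * Sc' p = 1 := by
  rw [Sc, Sc', Pm_mul, Equiv.self_trans_symm, Pm_one]

theorem Tc_sq (j : ZMod p) : Tc p j * Tc p j = 1 := by
  rw [Tc, Pm_mul, ← Pm_one]
  congr 1
  ext x i
  simp only [flip, Equiv.trans_apply, Equiv.coe_addRight, Equiv.refl_apply, Pi.add_apply,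
    add_assoc]
  rw [CharTwo.add_self_eq_zero, add_zero]

theorem Tc_mul_Zc_ne {j k : ZMod p} (h : j ≠ k) : Tc p j * Zc p k = Zc p k * Tc p j := by
  rw [Tc, Zc, Pm_diag]
  congr 2
  funext x
  simp [flip, h.symm]

theorem Tc_mul_Zc_self (j : ZMod p) : Tc p j * Zc p j = Zc p j * Tc p j + Tc p j := by
  have h : Tc p j * Zc p j = (Zc p j + 1) * Tc p j := by
    rw [Tc, Zc, Pm_diag]
    congr 1
    ext x y
    simp only [flip, Equiv.coe_addRight, Pi.add_apply, Pi.single_eq_same, Matrix.add_apply]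
    by_cases hxy : x = y
    · subst hxy; simp
    · simp [Matrix.diagonal_apply_ne _ hxy, Matrix.one_apply_ne hxy]
  rw [h, add_mul, one_mul]

theorem Sc_mul_Zc (j : ZMod p) : Sc p * Zc p j * Sc' p = Zc p (j + 1) := by
  have h : Sc p * Zc p j = Zc p (j + 1) * Sc p := by
    rw [Sc, Zc, Pm_diag]
    rfl
  rw [h, mul_assoc, Sc_mul_Sc', mul_one]

theorem Sc_mul_Tc (j : ZMod p) : Sc p * Tc p j * Sc' p = Tc p (j + 1) := by
  have h : Sc p * Tc p j = Tc p (j + 1) * Sc p := by
    rw [Sc, Tc, Tc, Pm_mul, Pm_mul]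
    congr 1
    ext x i
    simp only [shift, flip, Equiv.trans_apply, Equiv.coe_fn_mk, Equiv.coe_addRight, Pi.add_apply,
      Pi.single_apply]
    congr 1
    simp
  rw [h, mul_assoc, Sc_mul_Sc', mul_one]

theorem Zc_comm (j k : ZMod p) : Zc p j * Zc p k = Zc p k * Zc p j := by
  rw [Zc, Zc, Matrix.diagonal_mul_diagonal, Matrix.diagonal_mul_diagonal]
  congr 1
  funext x
  exact mul_comm _ _

end coord

/-- `Z_j` -/
def Zop (j : ℕ) : P := fun p => Zc p (j : ZMod p)

/-- `T_j` -/
def Top (j : ℕ) : P := fun p => Tc p (j : ZMod p)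

/-- the shift -/
def Sop : P := fun p => Sc p

/-- the inverse shift -/
def Sop' : P := fun p => Sc' p

theorem Zop_succ (j : ℕ) : Zop (j + 1) = Sop * Zop j * Sop' := by
  funext p
  show Zc p ((j + 1 : ℕ) : ZMod p) = Sc p * Zc p (j : ZMod p) * Sc' p
  rw [Sc_mul_Zc]
  push_cast
  rfl

theorem Top_succ (j : ℕ) : Top (j + 1) = Sop * Top j * Sop' := by
  funext p
  show Tc p ((j + 1 : ℕ) : ZMod p) = Sc p * Tc p (j : ZMod p) * Sc' p
  rw [Sc_mul_Tc]
  push_cast
  rfl

/-- the element which is one at `p` and zero elsewhere -/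
theorem single_one_eq (p : Nat.Primes) :
    (Pi.single p 1 : P) = (Zop 0 * Top p + Top p * Zop 0) * (Zop 0 * Top p + Top p * Zop 0) := by
  funext q
  show (Pi.single p 1 : P) q = (Zc q ((0 : ℕ) : ZMod q) * Tc q ((p : ℕ) : ZMod q) +
    Tc q ((p : ℕ) : ZMod q) * Zc q ((0 : ℕ) : ZMod q)) *
    (Zc q ((0 : ℕ) : ZMod q) * Tc q ((p : ℕ) : ZMod q) +
    Tc q ((p : ℕ) : ZMod q) * Zc q ((0 : ℕ) : ZMod q))
  by_cases h : q = p
  · subst h
    rw [Pi.single_eq_same, Nat.cast_zero]
    have h0 : (((q : ℕ) : ℕ) : ZMod q) = 0 := ZMod.natCast_self _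
    rw [h0, Tc_mul_Zc_self, ← add_assoc, charTwo_M, zero_add, Tc_sq]
  · rw [Pi.single_eq_of_ne h, Nat.cast_zero]
    have h0 : ((p : ℕ) : ZMod q) ≠ 0 := by
      intro h0
      rw [ZMod.natCast_eq_zero_iff] at h0
      exact h (Subtype.ext ((Nat.prime_dvd_prime_iff_eq q.2 p.2).1 h0))
    rw [Tc_mul_Zc_ne q h0, charTwo_M, mul_zero]

theorem zz_apply (j k : ℕ) (q : Nat.Primes) (h : ((j : ℕ) : ZMod q) ≠ (k : ZMod q)) :
    (Top j * (Zop j + Zop k) * Top j + (Zop j + Zop k)) q = 1 := by
  show Tc q (j : ZMod q) * (Zc q (j : ZMod q) + Zc q (k : ZMod q)) * Tc q (j : ZMod q) +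
    (Zc q (j : ZMod q) + Zc q (k : ZMod q)) = 1
  rw [mul_add, Tc_mul_Zc_self, Tc_mul_Zc_ne q h, add_mul, add_mul, mul_assoc, Tc_sq, mul_assoc,
    Tc_sq, mul_one, mul_one]
  generalize Zc q (j : ZMod q) = a
  generalize Zc q (k : ZMod q) = b
  have : a + 1 + b + (a + b) = (a + a) + (b + b) + 1 := by abel
  rw [this, charTwo_M, charTwo_M]
  simp

/-- the element which is zero on `F` and one elsewhere -/
def cut (F : Finset Nat.Primes) : P := fun q => if q ∈ F then 0 else 1

theorem cut_eq (F : Finset Nat.Primes) : cut F = 1 - ∑ p ∈ F, (Pi.single p 1 : P) := by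
  funext q
  rw [Pi.sub_apply, Finset.sum_apply, cut]
  by_cases h : q ∈ F
  · rw [if_pos h, Finset.sum_eq_single q]
    · simp
    · intro b _ hb
      rw [Pi.single_eq_of_ne hb.symm]
    · intro h'; exact absurd h h'
  · rw [if_neg h, Finset.sum_eq_zero]
    · simp
    · intro b hb
      rw [Pi.single_eq_of_ne]
      rintro rfl
      exact h hb

/-- the generators -/
def gens : Set P := {Zop 0, Top 0, Sop, Sop'}

theorem gens_finite : gens.Finite := by
  unfold gens
  simp

/-- the finitely generated ring -/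
def R : Subalgebra (ZMod 2) P := Algebra.adjoin (ZMod 2) gens

theorem Zop_mem (j : ℕ) : Zop j ∈ R := by
  induction j with
  | zero => exact Algebra.subset_adjoin (by simp [gens])
  | succ j ih =>
    rw [Zop_succ]
    exact R.mul_mem (R.mul_mem (Algebra.subset_adjoin (by simp [gens])) ih)
      (Algebra.subset_adjoin (by simp [gens]))

theorem Top_mem (j : ℕ) : Top j ∈ R := by
  induction j with
  | zero => exact Algebra.subset_adjoin (by simp [gens])
  | succ j ih =>
    rw [Top_succ]
    exact R.mul_mem (R.mul_mem (Algebra.subset_adjoin (by simp [gens])) ih)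
      (Algebra.subset_adjoin (by simp [gens]))

theorem single_one_mem (p : Nat.Primes) : (Pi.single p 1 : P) ∈ R := by
  rw [single_one_eq]
  exact R.mul_mem (R.add_mem (R.mul_mem (Zop_mem _) (Top_mem _)) (R.mul_mem (Top_mem _) (Zop_mem _)))
    (R.add_mem (R.mul_mem (Zop_mem _) (Top_mem _)) (R.mul_mem (Top_mem _) (Zop_mem _)))

theorem cut_mem (F : Finset Nat.Primes) : cut F ∈ R := by
  rw [cut_eq]
  exact R.sub_mem R.one_mem (R.sum_mem fun p _ => single_one_mem p)

end Pool.Agent.Run7.h261.FA
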