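import Pool.Agent.Run7.h261.FA.Elem
import Pool.Agent.Run7.h261.FA.Ring

set_option autoImplicit false

/-!
The elementary groups over rings between `R` and the product ring: every normal subgroup of
finite index contains a principal congruence subgroup.
-/

namespace Pool.Agent.Run7.h261.FA

/-- the big group -/
abbrev GG : Type := (p : Nat.Primes) → U3 (M p)

/-- elementary matrices over the product ring -/
def E (i j : Fin 3) (h : i ≠ j) (r : P) : GG := fun p => el i j h (r p)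

theorem E_add (i j : Fin 3) (h : i ≠ j) (a b : P) : E i j h (a + b) = E i j h a * E i j h b := by
  funext p
  exact el_add i j h (a p) (b p)

theorem E_neg (i j : Fin 3) (h : i ≠ j) (a : P) : E i j h (-a) = (E i j h a)⁻¹ := by
  funext p
  exact el_neg i j h (a p)

theorem E_zero (i j : Fin 3) (h : i ≠ j) : E i j h (0 : P) = 1 := by
  funext p
  exact el_zero i j h

theorem E_comm (i j k : Fin 3) (hij : i ≠ j) (hjk : j ≠ k) (hik : i ≠ k) (a b : P) :
    E i j hij a * E j k hjk b * (E i j hij a)⁻¹ * (E j k hjk b)⁻¹ = E i k hik (a * b) := by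
  funext p
  exact el_comm i j k hij hjk hik (a p) (b p)

/-- the truncation: forget the coordinates in `F` -/
def tau (F : Finset Nat.Primes) : GG →* GG where
  toFun g := fun p => if p ∈ F then 1 else g p
  map_one' := by
    funext p
    split_ifs <;> rfl
  map_mul' g h := by
    funext p
    by_cases hp : p ∈ F <;> simp [hp]

theorem tau_apply (F : Finset Nat.Primes) (g : GG) (p : Nat.Primes) :
    tau F g p = if p ∈ F then 1 else g p := rfl

theorem tau_E (F : Finset Nat.Primes) (i j : Fin 3) (h : i ≠ j) (r : P) :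
    tau F (E i j h r) = E i j h (cut F * r) := by
  funext p
  rw [tau_apply]
  by_cases hp : p ∈ F
  · rw [if_pos hp]
    show (1 : U3 (M p)) = el i j h ((cut F * r) p)
    rw [Pi.mul_apply, cut, if_pos hp, zero_mul, el_zero]
  · rw [if_neg hp]
    show el i j h (r p) = el i j h ((cut F * r) p)
    rw [Pi.mul_apply, cut, if_neg hp, one_mul]

/-- the elementary group -/
def EL (K : Subalgebra (ZMod 2) P) : Subgroup GG :=
  Subgroup.closure {g | ∃ (i j : Fin 3) (h : i ≠ j), ∃ r ∈ K, g = E i j h r}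

theorem E_mem {K : Subalgebra (ZMod 2) P} (i j : Fin 3) (h : i ≠ j) {r : P} (hr : r ∈ K) :
    E i j h r ∈ EL K := Subgroup.subset_closure ⟨i, j, h, r, hr, rfl⟩

theorem EL_mono {K L : Subalgebra (ZMod 2) P} (h : K ≤ L) : EL K ≤ EL L := by
  apply Subgroup.closure_mono
  rintro g ⟨i, j, hij, r, hr, rfl⟩
  exact ⟨i, j, hij, r, h hr, rfl⟩

section csp

variable {K : Subalgebra (ZMod 2) P} {N : Subgroup GG}

theorem stepR (hnorm : ∀ g ∈ EL K, ∀ n ∈ N, g * n * g⁻¹ ∈ N) (i j k : Fin 3) (hij : i ≠ j)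
    (hjk : j ≠ k) (hik : i ≠ k) {r s : P} (hr : E i j hij r ∈ N) (hs : s ∈ K) :
    E i k hik (r * s) ∈ N := by
  rw [← E_comm i j k hij hjk hik, mul_assoc, mul_assoc]
  refine N.mul_mem hr ?_
  rw [← mul_assoc]
  exact hnorm _ (E_mem j k hjk hs) _ (N.inv_mem hr)

theorem stepL (hnorm : ∀ g ∈ EL K, ∀ n ∈ N, g * n * g⁻¹ ∈ N) (k i j : Fin 3) (hki : k ≠ i)
    (hij : i ≠ j) (hkj : k ≠ j) {r s : P} (hr : E i j hij r ∈ N) (hs : s ∈ K) :
    E k j hkj (s * r) ∈ N := by
  rw [← E_comm k i j hki hij hkj]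
  exact N.mul_mem (hnorm _ (E_mem k i hki hs) _ hr) (N.inv_mem hr)

theorem allJ (hnorm : ∀ g ∈ EL K, ∀ n ∈ N, g * n * g⁻¹ ∈ N) {r : P}
    (h01 : E 0 1 (by decide) r ∈ N) : ∀ (i j : Fin 3) (h : i ≠ j), E i j h r ∈ N := by
  have R1 : ∀ (i j k : Fin 3) (hij : i ≠ j) (_ : j ≠ k) (hik : i ≠ k),
      E i j hij r ∈ N → E i k hik r ∈ N := by
    intro i j k hij hjk hik h
    have := stepR hnorm i j k hij hjk hik h K.one_mem
    rwa [mul_one] at this
  have L1 : ∀ (k i j : Fin 3) (_ : k ≠ i) (hij : i ≠ j) (hkj : k ≠ j),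
      E i j hij r ∈ N → E k j hkj r ∈ N := by
    intro k i j hki hij hkj h
    have := stepL hnorm k i j hki hij hkj h K.one_mem
    rwa [one_mul] at this
  have h02 := R1 0 1 2 (by decide) (by decide) (by decide) h01
  have h21 := L1 2 0 1 (by decide) (by decide) (by decide) h01
  have h12 := L1 1 0 2 (by decide) (by decide) (by decide) h02
  have h20 := R1 2 1 0 (by decide) (by decide) (by decide) h21
  have h10 := R1 1 2 0 (by decide) (by decide) (by decide) h12
  intro i j h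
  fin_cases i <;> fin_cases j
  · exact absurd rfl h
  · exact h01
  · exact h02
  · exact h10
  · exact absurd rfl h
  · exact h12
  · exact h20
  · exact h21
  · exact absurd rfl h

theorem mulR (hnorm : ∀ g ∈ EL K, ∀ n ∈ N, g * n * g⁻¹ ∈ N) {r s : P}
    (hr : ∀ (i j : Fin 3) (h : i ≠ j), E i j h r ∈ N) (hs : s ∈ K) :
    ∀ (i j : Fin 3) (h : i ≠ j), E i j h (r * s) ∈ N :=
  allJ hnorm (stepR hnorm 0 2 1 (by decide) (by decide) (by decide) (hr 0 2 (by decide)) hs)

theorem mulL (hnorm : ∀ g ∈ EL K, ∀ n ∈ N, g * n * g⁻¹ ∈ N) {r s : P}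
    (hr : ∀ (i j : Fin 3) (h : i ≠ j), E i j h r ∈ N) (hs : s ∈ K) :
    ∀ (i j : Fin 3) (h : i ≠ j), E i j h (s * r) ∈ N :=
  allJ hnorm (stepL hnorm 0 2 1 (by decide) (by decide) (by decide) (hr 2 1 (by decide)) hs)

/-- the primes dividing `n` -/
def pf (n : ℕ) : Finset Nat.Primes := n.primeFactors.subtype Nat.Prime

theorem mem_pf {n : ℕ} (hn : n ≠ 0) (q : Nat.Primes) : q ∈ pf n ↔ (q : ℕ) ∣ n := by
  have h1 : q ∈ pf n ↔ (q : ℕ) ∈ n.primeFactors := by
    unfold pf
    exact Finset.mem_subtype (p := Nat.Prime) (s := n.primeFactors) (a := q)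
  rw [h1, Nat.mem_primeFactors]
  exact ⟨fun h => h.2.1, fun h => ⟨q.2, h, hn⟩⟩

/-- **congruence subgroups** -/
theorem csp (hK : R ≤ K) (hnorm : ∀ g ∈ EL K, ∀ n ∈ N, g * n * g⁻¹ ∈ N)
    (hpig : ∀ f : ℕ → GG, (∀ n, f n ∈ EL K) → ∃ j k, j < k ∧ (f j)⁻¹ * f k ∈ N) :
    ∃ F : Finset Nat.Primes, ∀ g ∈ EL K, tau F g ∈ N := by
  obtain ⟨j, k, hjk, h⟩ := hpig (fun n => E 0 1 (by decide) (Zop n))
    (fun n => E_mem _ _ _ (hK (Zop_mem n)))
  have h1 : E 0 1 (by decide) (Zop j + Zop k) ∈ N := by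
    have e : Zop j = -Zop j := by
      rw [eq_neg_iff_add_eq_zero]
      exact charTwo_P _
    rw [e, E_add, E_neg]
    exact h
  have h2 := allJ hnorm h1
  have hT : Top j ∈ K := hK (Top_mem j)
  have h3 := mulR hnorm (mulL hnorm h2 hT) hT
  have h4 : ∀ (i i' : Fin 3) (h : i ≠ i'),
      E i i' h (Top j * (Zop j + Zop k) * Top j + (Zop j + Zop k)) ∈ N := by
    intro i i' h
    rw [E_add]
    exact N.mul_mem (h3 i i' h) (h2 i i' h)
  refine ⟨pf (k - j), ?_⟩
  have h5 := mulL hnorm h4 (hK (cut_mem (pf (k - j))))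
  have h6 : cut (pf (k - j)) * (Top j * (Zop j + Zop k) * Top j + (Zop j + Zop k)) =
      cut (pf (k - j)) := by
    funext q
    rw [Pi.mul_apply]
    by_cases hq : q ∈ pf (k - j)
    · rw [cut, if_pos hq, zero_mul]
    · rw [zz_apply, mul_one]
      intro h0
      apply hq
      rw [mem_pf (by omega)]
      rw [ZMod.natCast_eq_natCast_iff] at h0
      exact (Nat.modEq_iff_dvd' hjk.le).1 h0
  rw [h6] at h5
  intro g hg
  unfold EL at hg
  induction hg using Subgroup.closure_induction with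
  | mem x hx =>
    obtain ⟨i, j, hij, r, hr, rfl⟩ := hx
    rw [tau_E]
    exact mulR hnorm h5 hr i j hij
  | one => rw [map_one]; exact N.one_mem
  | mul x y _ _ hx hy => rw [map_mul]; exact N.mul_mem hx hy
  | inv x _ hx => rw [map_inv]; exact N.inv_mem hx

end csp

/-- the elementary group is closed under truncation -/
theorem tau_mem {K : Subalgebra (ZMod 2) P} (hK : R ≤ K) (F : Finset Nat.Primes) {g : GG}
    (hg : g ∈ EL K) : tau F g ∈ EL K := by
  unfold EL at hg
  induction hg using Subgroup.closure_induction with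
  | mem x hx =>
    obtain ⟨i, j, hij, r, hr, rfl⟩ := hx
    rw [tau_E]
    exact E_mem i j hij (K.mul_mem (hK (cut_mem F)) hr)
  | one => rw [map_one]; exact Subgroup.one_mem _
  | mul x y _ _ hx hy => rw [map_mul]; exact Subgroup.mul_mem _ hx hy
  | inv x _ hx => rw [map_inv]; exact Subgroup.inv_mem _ hx

end Pool.Agent.Run7.h261.FA
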