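import Mathlib

set_option autoImplicit false

/-!
Elementary matrices over a (non-commutative) ring.
-/

namespace Pool.Agent.Run7.h261.FA

open Matrix

/-- the units of the ring of 3 by 3 matrices -/
abbrev U3 (A : Type) [Ring A] : Type := (Matrix (Fin 3) (Fin 3) A)ˣ

section

variable {A : Type} [Ring A]

theorem single_sq {i j : Fin 3} (h : i ≠ j) (a b : A) :
    (Matrix.single i j a : Matrix (Fin 3) (Fin 3) A) * Matrix.single i j b = 0 := by
  rw [Matrix.single_mul_single_of_ne]
  exact fun h' => h h'.symm

/-- the elementary matrix `1 + a E_ij` -/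
def el (i j : Fin 3) (h : i ≠ j) (a : A) : U3 A where
  val := 1 + Matrix.single i j a
  inv := 1 + Matrix.single i j (-a)
  val_inv := by
    rw [mul_add, add_mul, add_mul, single_sq h, mul_one, one_mul, mul_one, add_zero, add_assoc,
      ← Matrix.single_add]
    simp
  inv_val := by
    rw [mul_add, add_mul, add_mul, single_sq h, mul_one, one_mul, mul_one, add_zero, add_assoc,
      ← Matrix.single_add]
    simp

theorem el_val (i j : Fin 3) (h : i ≠ j) (a : A) :
    (el i j h a : Matrix (Fin 3) (Fin 3) A) = 1 + Matrix.single i j a := rfl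

theorem el_add (i j : Fin 3) (h : i ≠ j) (a b : A) :
    el i j h (a + b) = el i j h a * el i j h b := by
  ext1
  rw [Units.val_mul, el_val, el_val, el_val, mul_add, add_mul, add_mul, single_sq h, mul_one,
    one_mul, mul_one, add_zero, add_assoc, ← Matrix.single_add]

theorem el_zero (i j : Fin 3) (h : i ≠ j) : el i j h (0 : A) = 1 := by
  ext1
  rw [el_val]; simp

theorem el_neg (i j : Fin 3) (h : i ≠ j) (a : A) : el i j h (-a) = (el i j h a)⁻¹ := Units.ext rfl

theorem unip_comm {B : Type} [Ring B] (x y : B) (hx : x * x = 0) (hy : y * y = 0)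
    (hyx : y * x = 0) : (1 + x) * (1 + y) * (1 + -x) * (1 + -y) = 1 + x * y := by
  have e1 : x * y * x = 0 := by rw [mul_assoc, hyx, mul_zero]
  have e2 : x * y * y = 0 := by rw [mul_assoc, hy, mul_zero]
  have e3 : y * x * y = 0 := by rw [hyx, zero_mul]
  have : (1 + x) * (1 + y) * (1 + -x) * (1 + -y) =
      1 + x * y - x * x - y * x - x * y * x + x * x * y + y * x * y + x * y * x * y - y * y
        - x * y * y := by
    noncomm_ring
  rw [this, hx, hyx, e1, hy, e2]
  simp

theorem single_neg (i j : Fin 3) (a : A) :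
    (Matrix.single i j (-a) : Matrix (Fin 3) (Fin 3) A) = -Matrix.single i j a := by
  ext p q
  simp only [Matrix.single_apply, Matrix.neg_apply]
  split_ifs <;> simp

/-- the commutator relation -/
theorem el_comm (i j k : Fin 3) (hij : i ≠ j) (hjk : j ≠ k) (hik : i ≠ k) (a b : A) :
    el i j hij a * el j k hjk b * (el i j hij a)⁻¹ * (el j k hjk b)⁻¹ = el i k hik (a * b) := by
  ext1
  rw [← el_neg, ← el_neg, Units.val_mul, Units.val_mul, Units.val_mul, el_val, el_val, el_val,
    el_val, el_val, single_neg, single_neg, unip_comm _ _ (single_sq hij a a)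
    (single_sq hjk b b), Matrix.single_mul_single_same]
  exact Matrix.single_mul_single_of_ne _ _ _ _ (fun h => hik h.symm) _

theorem el_inj (i j : Fin 3) (h : i ≠ j) {a b : A} (hab : el i j h a = el i j h b) : a = b := by
  have h1 := congrArg (fun u : U3 A => (u : Matrix (Fin 3) (Fin 3) A) i j) hab
  simp only [el_val, Matrix.add_apply, Matrix.single_apply_same] at h1
  exact add_left_cancel h1

/-- in characteristic two `(1 + N)^4 = 1` as soon as `N^4 = 0` -/
theorem one_add_pow_four {B : Type} [Ring B] (h2 : ∀ b : B, b + b = 0) (N : B)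
    (hN : N * N * N * N = 0) : (1 + N) ^ 4 = 1 := by
  have e : (1 + N) ^ 4 = 1 + N * N * N * N + ((N + N) + (N + N)) + ((N * N * N + N * N * N) +
      (N * N * N + N * N * N)) + ((N * N + N * N) + (N * N + N * N) + (N * N + N * N)) := by
    noncomm_ring
  rw [e, hN, h2 N, h2 (N * N * N), h2 (N * N)]
  simp

/-- the product of two elementary matrices in cyclically arranged positions has order
dividing four in characteristic two -/
theorem el_mul_pow (h2 : ∀ a : A, a + a = 0) (i j k : Fin 3) (hij : i ≠ j) (hjk : j ≠ k)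
    (hik : i ≠ k) (a b : A) : (el i j hij a * el j k hjk b) ^ 4 = 1 ∧
      (el j k hjk b * el i j hij a) ^ 4 = 1 := by
  have hM : ∀ b : Matrix (Fin 3) (Fin 3) A, b + b = 0 := by
    intro b
    ext p q
    exact h2 _
  set x : Matrix (Fin 3) (Fin 3) A := Matrix.single i j a with hx
  set y : Matrix (Fin 3) (Fin 3) A := Matrix.single j k b with hy
  have hxx : x * x = 0 := single_sq hij a a
  have hyy : y * y = 0 := single_sq hjk b b
  have hyx : y * x = 0 := Matrix.single_mul_single_of_ne _ _ _ _ (fun h => hik h.symm) _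
  constructor
  · ext1
    rw [Units.val_pow_eq_pow_val, Units.val_mul, el_val, el_val, ← hx, ← hy]
    have e : (1 + x) * (1 + y) = 1 + (x + y + x * y) := by noncomm_ring
    rw [e, Units.val_one]
    apply one_add_pow_four hM
    have e1 : (x + y + x * y) * (x + y + x * y) = x * x + x * y + (x * x) * y + y * x + y * y +
        (y * x) * y + x * (y * x) + x * (y * y) + x * (y * x) * y := by noncomm_ring
    rw [e1, hxx, hyx, hyy]
    simp only [zero_mul, mul_zero, zero_add, add_zero]
    have e2 : x * y * (x + y + x * y) = x * (y * x) + x * (y * y) + x * (y * x) * y := by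
      noncomm_ring
    rw [e2, hyx, hyy]
    simp
  · ext1
    rw [Units.val_pow_eq_pow_val, Units.val_mul, el_val, el_val, ← hx, ← hy]
    have e : (1 + y) * (1 + x) = 1 + (x + y) := by
      have : (1 + y) * (1 + x) = 1 + (x + y) + y * x := by noncomm_ring
      rw [this, hyx, add_zero]
    rw [e, Units.val_one]
    apply one_add_pow_four hM
    have e1 : (x + y) * (x + y) = x * x + x * y + y * x + y * y := by noncomm_ring
    rw [e1, hxx, hyx, hyy]
    simp only [zero_add, add_zero]
    have e2 : x * y * (x + y) = x * (y * x) + x * (y * y) := by noncomm_ring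
    rw [e2, hyx, hyy]
    simp

theorem el_sq (h2 : ∀ a : A, a + a = 0) (i j : Fin 3) (hij : i ≠ j) (a : A) :
    (el i j hij a) ^ 2 = 1 := by
  rw [pow_two, ← el_add, h2, el_zero]

end

end Pool.Agent.Run7.h261.FA
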