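import Pool.Agent.Run7.h261.FA.Csp

set_option autoImplicit false

/-!
Dense subgroups with the congruence subgroup property form Grothendieck pairs.
-/

namespace Pool.Agent.Run7.h261.FA

/-- every normal subgroup of finite index of `G` contains a principal congruence subgroup -/
structure Csp (G : Subgroup GG) : Prop where
  csp : ∀ N : Subgroup GG, (∀ g ∈ G, ∀ n ∈ N, g * n * g⁻¹ ∈ N) →
    (∀ f : ℕ → GG, (∀ n, f n ∈ G) → ∃ j k, j < k ∧ (f j)⁻¹ * f k ∈ N) →
    ∃ F : Finset Nat.Primes, ∀ g ∈ G, tau F g ∈ N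

theorem csp_EL {K : Subalgebra (ZMod 2) P} (hK : R ≤ K) : Csp (EL K) where
  csp _ hnorm hpig := csp hK hnorm hpig

/-- the property of the definition for subgroups of finite index of the type `G` -/
theorem Csp.exists {G : Subgroup GG} (hG : Csp G) (N : Subgroup G) (hN : N.Normal)
    (hi : N.index ≠ 0) : ∃ F : Finset Nat.Primes, ∀ g : G, ∀ n : G, tau F g = n → n ∈ N := by
  have h1 : ∀ g ∈ G, ∀ n ∈ N.map G.subtype, g * n * g⁻¹ ∈ N.map G.subtype := by
    intro g hg n' hn'
    obtain ⟨n, hn, rfl⟩ := Subgroup.mem_map.1 hn'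
    have h3 := hN.conj_mem n hn ⟨g, hg⟩
    have h4 := Subgroup.mem_map_of_mem G.subtype h3
    rwa [map_mul, map_mul, map_inv, Subgroup.subtype_apply, Subgroup.subtype_apply] at h4
  have h2 : ∀ f : ℕ → GG, (∀ n, f n ∈ G) → ∃ j k, j < k ∧ (f j)⁻¹ * f k ∈ N.map G.subtype := by
    intro f hf
    haveI : Finite (G ⧸ N) := Nat.finite_of_card_ne_zero hi
    obtain ⟨j, k, hjk, he⟩ := Finite.exists_ne_map_eq_of_infinite
      (fun n : ℕ => ((⟨f n, hf n⟩ : G) : G ⧸ N))
    rcases lt_or_gt_of_ne hjk with h | h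
    · have h4 := Subgroup.mem_map_of_mem G.subtype (QuotientGroup.eq.1 he)
      rw [map_mul, map_inv, Subgroup.subtype_apply, Subgroup.subtype_apply] at h4
      exact ⟨j, k, h, h4⟩
    · have h4 := Subgroup.mem_map_of_mem G.subtype (QuotientGroup.eq.1 he.symm)
      rw [map_mul, map_inv, Subgroup.subtype_apply, Subgroup.subtype_apply] at h4
      exact ⟨k, j, h, h4⟩
  obtain ⟨F, hF⟩ := hG.csp (N.map G.subtype) h1 h2
  refine ⟨F, fun g n hn => ?_⟩
  have h1 := hF g g.2
  rw [hn] at h1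
  obtain ⟨m, hm, hmn⟩ := h1
  have : m = n := Subtype.ext hmn
  rwa [← this]

/-- the projection to finitely many coordinates -/
def proj (H : Subgroup GG) (F : Finset Nat.Primes) : H →* ((p : F) → U3 (M p)) where
  toFun h := fun p => (h : GG) p
  map_one' := rfl
  map_mul' _ _ := rfl

theorem proj_index (H : Subgroup GG) (F : Finset Nat.Primes) : (proj H F).ker.index ≠ 0 := by
  rw [Subgroup.index_ker]
  exact Nat.card_pos.ne'

theorem mem_proj_ker (H : Subgroup GG) (F : Finset Nat.Primes) (h : H) :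
    h ∈ (proj H F).ker ↔ ∀ p ∈ F, (h : GG) p = 1 := by
  rw [MonoidHom.mem_ker]
  constructor
  · intro h1 p hp
    exact congrFun h1 ⟨p, hp⟩
  · intro h1
    funext p
    exact h1 p p.2

theorem tau_eq_self {F : Finset Nat.Primes} {g : GG} (h : ∀ p ∈ F, g p = 1) : tau F g = g := by
  funext p
  rw [tau_apply]
  split_ifs with hp
  · exact (h p hp).symm
  · rfl

/-- subgroups of the big group are residually finite -/
theorem resfin (G : Subgroup GG) (g : G) (hg : g ≠ 1) :
    ∃ N : Subgroup G, N.Normal ∧ N.index ≠ 0 ∧ g ∉ N := by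
  obtain ⟨p, hp⟩ : ∃ p, (g : GG) p ≠ 1 := by
    by_contra hcon
    push Not at hcon
    exact hg (Subtype.ext (funext hcon))
  refine ⟨(proj G {p}).ker, inferInstance, proj_index G {p}, ?_⟩
  rw [mem_proj_ker]
  intro h
  exact hp (h p (Finset.mem_singleton_self p))

/-- the inclusion induces an injective map of profinite completions -/
theorem groth_inj {G H : Subgroup GG} (hGH : G ≤ H) (hG : Csp G) (N : Subgroup G)
    (hN : N.Normal) (hi : N.index ≠ 0) :
    ∃ L : Subgroup H, L.Normal ∧ L.index ≠ 0 ∧ L.comap (Subgroup.inclusion hGH) ≤ N := by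
  obtain ⟨F, hF⟩ := hG.exists N hN hi
  refine ⟨(proj H F).ker, inferInstance, proj_index H F, ?_⟩
  intro g hg
  rw [Subgroup.mem_comap, mem_proj_ker] at hg
  exact hF g g (tau_eq_self hg)

/-- the inclusion induces a surjective map of profinite completions -/
theorem groth_surj {G H : Subgroup GG} (hGH : G ≤ H) (hH : Csp H)
    (him : ∀ (F : Finset Nat.Primes), ∀ h ∈ H, ∃ g ∈ G, ∀ p ∈ F, g p = h p)
    (L : Subgroup H) (hL : L.Normal) (hi : L.index ≠ 0) (h : H) :
    ∃ g : G, ∃ m ∈ L, h = Subgroup.inclusion hGH g * m := by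
  obtain ⟨F, hF⟩ := hH.exists L hL hi
  obtain ⟨g, hg, hgp⟩ := him F h h.2
  refine ⟨⟨g, hg⟩, (Subgroup.inclusion hGH ⟨g, hg⟩)⁻¹ * h, ?_, by group⟩
  refine hF _ _ (tau_eq_self ?_)
  intro p hp
  show (g p)⁻¹ * (h : GG) p = 1
  rw [hgp p hp, inv_mul_cancel]

end Pool.Agent.Run7.h261.FA
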