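import Mathlib
import Pool.Agent.Helper270.Tree

set_option autoImplicit false

/-!
A finiteness criterion for property (FA): a group generated by a finite set `S` such that all
elements of `S` and all products of two elements of `S` have finite order.
-/

namespace Pool.Agent.Run7.h261.FA

open Pool.Agent.Helper270.Tree

variable {G V : Type} [Group G] [MulAction G V] {T : SimpleGraph V}

/-- an element of finite order fixes a vertex -/
theorem elliptic_of_pow (h : TreeAct G T) {g : G} {n : ℕ} (hn : 0 < n) (hg : g ^ n = 1) :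
    ∃ v : V, g • v = v := by
  by_contra hcon
  push Not at hcon
  obtain ⟨L, l, hax⟩ := h.exists_axis hcon
  have h1 := hax.smul_zpow (n : ℤ) 0
  rw [zpow_natCast, hg, one_smul] at h1
  have h2 := hax.line.injective h.isTree h1
  have h3 := hax.pos
  have h4 : (0 : ℤ) < (n : ℤ) * (l : ℤ) := by positivity
  omega

/-- Serre's criterion -/
theorem fixed_of_finite_orders (h : TreeAct G T) (S : Finset G)
    (hgen : Subgroup.closure (S : Set G) = ⊤)
    (h1 : ∀ s ∈ S, ∃ n : ℕ, 0 < n ∧ s ^ n = 1)
    (h2 : ∀ s ∈ S, ∀ t ∈ S, ∃ n : ℕ, 0 < n ∧ (s * t) ^ n = 1) :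
    ∃ v : V, ∀ g : G, g • v = v := by
  classical
  have key : ∀ S' : Finset G, S' ⊆ S → ∃ x : V, ∀ a ∈ S', a • x = x := by
    intro S'
    induction S' using Finset.induction_on with
    | empty =>
      intro _
      obtain ⟨v⟩ := h.isTree.connected.nonempty
      exact ⟨v, by simp⟩
    | insert s S' _ ih =>
      intro hS
      have hs : s ∈ S := hS (Finset.mem_insert_self _ _)
      have hS' : S' ⊆ S := fun a ha => hS (Finset.mem_insert_of_mem ha)
      obtain ⟨n, hn, hsn⟩ := h1 s hs
      obtain ⟨x, hx, hx'⟩ := h.common_fixed (S' : Set G) s (by simpa using ih hS')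
        (elliptic_of_pow h hn hsn) (fun a ha => by
          obtain ⟨m, hm, hsm⟩ := h2 a (hS' (by simpa using ha)) s hs
          exact elliptic_of_pow h hm hsm)
      refine ⟨x, fun a ha => ?_⟩
      rcases Finset.mem_insert.mp ha with rfl | ha
      · exact hx'
      · exact hx a (by simpa using ha)
  obtain ⟨x, hx⟩ := key S (fun _ h => h)
  refine ⟨x, fun g => ?_⟩
  have hle : Subgroup.closure (S : Set G) ≤ MulAction.stabilizer G x := by
    rw [Subgroup.closure_le]
    intro a ha
    exact hx a (by simpa using ha)
  have : g ∈ Subgroup.closure (S : Set G) := by rw [hgen]; trivial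
  exact hle this

end Pool.Agent.Run7.h261.FA
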