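import Pool.Agent.Run7.h261.FA.Groth
import Pool.Agent.Run7.h261.FA.Serre

set_option autoImplicit false

/-!
The elementary group over the finitely generated ring `R` is finitely generated and has
property (FA).
-/

namespace Pool.Agent.Run7.h261.FA

open Pool.Agent.Helper270.Tree

theorem E_sq (i j : Fin 3) (h : i ≠ j) (a : P) : (E i j h a) ^ 2 = 1 := by
  funext p
  exact el_sq (charTwo_M p) i j h (a p)

theorem E_mul_pow (i j k : Fin 3) (hij : i ≠ j) (hjk : j ≠ k) (hik : i ≠ k) (a b : P) :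
    (E i j hij a * E j k hjk b) ^ 4 = 1 ∧ (E j k hjk b * E i j hij a) ^ 4 = 1 := by
  constructor
  · funext p
    exact (el_mul_pow (charTwo_M p) i j k hij hjk hik (a p) (b p)).1
  · funext p
    exact (el_mul_pow (charTwo_M p) i j k hij hjk hik (a p) (b p)).2

theorem E_same_pow (i j : Fin 3) (hij : i ≠ j) (a b : P) :
    (E i j hij a * E i j hij b) ^ 4 = 1 := by
  rw [← E_add, show (4 : ℕ) = 2 * 2 from rfl, pow_mul, E_sq, one_pow]

/-- the finite generating set -/
def S0 : Set GG := {g | (∃ r ∈ insert 1 gens, g = E 0 1 (by decide) r) ∨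
  (∃ r ∈ insert 1 gens, g = E 1 2 (by decide) r) ∨ (∃ r ∈ insert 1 gens, g = E 2 0 (by decide) r)}

theorem S0_finite : S0.Finite := by
  have h : (insert (1 : P) gens).Finite := gens_finite.insert 1
  have e : S0 = (E 0 1 (by decide)) '' (insert 1 gens) ∪ ((E 1 2 (by decide)) '' (insert 1 gens) ∪
      (E 2 0 (by decide)) '' (insert 1 gens)) := by
    ext g
    simp only [S0, Set.mem_setOf_eq, Set.mem_union, Set.mem_image, eq_comm]
  rw [e]
  exact (h.image _).union ((h.image _).union (h.image _))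

theorem S0_sq {s : GG} (hs : s ∈ S0) : s ^ 2 = 1 := by
  rcases hs with ⟨r, -, rfl⟩ | ⟨r, -, rfl⟩ | ⟨r, -, rfl⟩ <;> exact E_sq _ _ _ _

theorem S0_mul_pow {s t : GG} (hs : s ∈ S0) (ht : t ∈ S0) : (s * t) ^ 4 = 1 := by
  rcases hs with ⟨r, -, rfl⟩ | ⟨r, -, rfl⟩ | ⟨r, -, rfl⟩ <;>
  rcases ht with ⟨r', -, rfl⟩ | ⟨r', -, rfl⟩ | ⟨r', -, rfl⟩
  · exact E_same_pow _ _ _ _ _
  · exact (E_mul_pow 0 1 2 (by decide) (by decide) (by decide) _ _).1
  · exact (E_mul_pow 2 0 1 (by decide) (by decide) (by decide) _ _).2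
  · exact (E_mul_pow 0 1 2 (by decide) (by decide) (by decide) _ _).2
  · exact E_same_pow _ _ _ _ _
  · exact (E_mul_pow 1 2 0 (by decide) (by decide) (by decide) _ _).1
  · exact (E_mul_pow 2 0 1 (by decide) (by decide) (by decide) _ _).1
  · exact (E_mul_pow 1 2 0 (by decide) (by decide) (by decide) _ _).2
  · exact E_same_pow _ _ _ _ _

/-- the finitely generated group with property (FA) -/
def GR : Subgroup GG := Subgroup.closure S0

theorem E_mem_of_comm {C : Subgroup GG} (i j k : Fin 3) (hij : i ≠ j) (hjk : j ≠ k) (hik : i ≠ k)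
    {a b : P} (ha : E i j hij a ∈ C) (hb : E j k hjk b ∈ C) : E i k hik (a * b) ∈ C := by
  rw [← E_comm i j k hij hjk hik]
  exact C.mul_mem (C.mul_mem (C.mul_mem ha hb) (C.inv_mem ha)) (C.inv_mem hb)

theorem E_gen (r : P) (hr : r ∈ insert 1 gens) (i j : Fin 3) (h : i ≠ j) : E i j h r ∈ GR := by
  have h1 : (1 : P) ∈ insert 1 gens := Set.mem_insert _ _
  have a01 : ∀ s ∈ insert (1 : P) gens, E 0 1 (by decide) s ∈ GR := fun s hs =>
    Subgroup.subset_closure (Or.inl ⟨s, hs, rfl⟩)
  have a12 : ∀ s ∈ insert (1 : P) gens, E 1 2 (by decide) s ∈ GR := fun s hs =>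
    Subgroup.subset_closure (Or.inr (Or.inl ⟨s, hs, rfl⟩))
  have a20 : ∀ s ∈ insert (1 : P) gens, E 2 0 (by decide) s ∈ GR := fun s hs =>
    Subgroup.subset_closure (Or.inr (Or.inr ⟨s, hs, rfl⟩))
  have a02 : E 0 2 (by decide) r ∈ GR := by
    have := E_mem_of_comm 0 1 2 (by decide) (by decide) (by decide) (a01 r hr) (a12 1 h1)
    rwa [mul_one] at this
  have a10 : E 1 0 (by decide) r ∈ GR := by
    have := E_mem_of_comm 1 2 0 (by decide) (by decide) (by decide) (a12 r hr) (a20 1 h1)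
    rwa [mul_one] at this
  have a21 : E 2 1 (by decide) r ∈ GR := by
    have := E_mem_of_comm 2 0 1 (by decide) (by decide) (by decide) (a20 r hr) (a01 1 h1)
    rwa [mul_one] at this
  fin_cases i <;> fin_cases j
  · exact absurd rfl h
  · exact a01 r hr
  · exact a02
  · exact a10
  · exact absurd rfl h
  · exact a12 r hr
  · exact a20 r hr
  · exact a21
  · exact absurd rfl h

theorem third (i j : Fin 3) (h : i ≠ j) : ∃ k : Fin 3, i ≠ k ∧ k ≠ j := by
  revert i j h
  decide

theorem E_R (r : P) (hr : r ∈ R) : ∀ (i j : Fin 3) (h : i ≠ j), E i j h r ∈ GR := by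
  unfold R at hr
  induction hr using Algebra.adjoin_induction with
  | mem x hx =>
    intro i j h
    exact E_gen x (Set.mem_insert_of_mem _ hx) i j h
  | algebraMap r =>
    intro i j h
    have : r = 0 ∨ r = 1 := by
      revert r
      decide
    rcases this with rfl | rfl
    · rw [map_zero, E_zero]
      exact Subgroup.one_mem _
    · rw [map_one]
      exact E_gen 1 (Set.mem_insert _ _) i j h
  | add x y _ _ hx hy =>
    intro i j h
    rw [E_add]
    exact Subgroup.mul_mem _ (hx i j h) (hy i j h)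
  | mul x y _ _ hx hy =>
    intro i j h
    obtain ⟨k, h1, h2⟩ := third i j h
    exact E_mem_of_comm i k j h1 h2 h (hx i k h1) (hy k j h2)

theorem GR_eq : GR = EL R := by
  apply le_antisymm
  · unfold GR
    rw [Subgroup.closure_le]
    have h0 : insert (1 : P) gens ⊆ R := by
      intro r hr
      rcases hr with rfl | hr
      · exact R.one_mem
      · exact Algebra.subset_adjoin hr
    rintro g (⟨r, hr, rfl⟩ | ⟨r, hr, rfl⟩ | ⟨r, hr, rfl⟩) <;> exact E_mem _ _ _ (h0 hr)
  · unfold EL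
    rw [Subgroup.closure_le]
    rintro g ⟨i, j, h, r, hr, rfl⟩
    exact E_R r hr i j h

theorem csp_GR : Csp GR := by
  rw [GR_eq]
  exact csp_EL le_rfl

/-- the generating set as a finite set of elements of the group -/
theorem exists_gens : ∃ S : Finset GR, Subgroup.closure (S : Set GR) = ⊤ ∧
    (∀ s ∈ S, (s : GG) ∈ S0) := by
  have hfin : (((↑) : GR → GG) ⁻¹' S0).Finite :=
    S0_finite.preimage (Subtype.val_injective.injOn)
  refine ⟨hfin.toFinset, ?_, ?_⟩
  · rw [Set.Finite.coe_toFinset]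
    exact Subgroup.closure_closure_coe_preimage
  · intro s hs
    rw [Set.Finite.mem_toFinset] at hs
    exact hs

theorem fg_GR : Group.FG GR := by
  obtain ⟨S, hS, -⟩ := exists_gens
  exact Group.fg_def.2 ⟨S, hS⟩

/-- **property (FA)** -/
theorem fa_GR {V : Type} [MulAction GR V] {T : SimpleGraph V} (h : TreeAct GR T) :
    ∃ v : V, ∀ g : GR, g • v = v := by
  obtain ⟨S, hS, hS0⟩ := exists_gens
  refine fixed_of_finite_orders h S hS ?_ ?_
  · intro s hs
    refine ⟨2, by norm_num, ?_⟩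
    apply Subtype.ext
    rw [Subgroup.coe_pow, Subgroup.coe_one]
    exact S0_sq (hS0 s hs)
  · intro s hs t ht
    refine ⟨4, by norm_num, ?_⟩
    apply Subtype.ext
    rw [Subgroup.coe_pow, Subgroup.coe_one, Subgroup.coe_mul]
    exact S0_mul_pow (hS0 s hs) (hS0 t ht)

end Pool.Agent.Run7.h261.FA
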